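import Pool.Agent.H95.RQ.Targets1

/-!
# RQ project: EQS (equivariant choice)
-/

set_option autoImplicit false

namespace Pool.Agent.H74.RQ

open Pool.Agent.H95.RQ

theorem pf_EQS : T_EQS := by
  intro X A _ π s n R hn hπ hs hR hmul hex
  choose c hc using hex
  have hiter : ∀ (i : ℕ) (y : X) (a : A), R y a → R ((π ^ i) y) (s^[i] a) := by
    intro i
    induction i with
    | zero =>
      intro y a h
      exact h
    | succ i ih =>
      intro y a h
      have h1 := hR _ _ (ih y a h)
      rw [Function.iterate_succ_apply', pow_succ', Equiv.Perm.mul_apply]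
      exact h1
  have hprod : ∀ (x : X) (f : ℕ → A), (∀ i, R x (f i)) → ∀ N : ℕ,
      R x (∏ i ∈ Finset.range (N + 1), f i) := by
    intro x f hf N
    induction N with
    | zero =>
      rw [Finset.prod_range_one]
      exact hf 0
    | succ N ih =>
      rw [Finset.prod_range_succ]
      exact hmul _ _ _ ih (hf _)
  obtain ⟨m, rfl⟩ : ∃ m, n = m + 1 := ⟨n - 1, by omega⟩
  refine ⟨fun x => ∏ i ∈ Finset.range (m + 1), s^[i] (c ((π ^ i)⁻¹ x)), fun x => ?_, fun x => ?_⟩
  · show ∏ i ∈ Finset.range (m + 1), s^[i] (c ((π ^ i)⁻¹ (π x))) =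
      s (∏ i ∈ Finset.range (m + 1), s^[i] (c ((π ^ i)⁻¹ x)))
    rw [Finset.prod_range_succ', map_prod, Finset.prod_range_succ]
    congr 1
    · refine Finset.prod_congr rfl fun i _ => ?_
      rw [Function.iterate_succ_apply', pow_succ', mul_inv_rev, Equiv.Perm.mul_apply]
      have h1 : π⁻¹ (π x) = x := π.symm_apply_apply x
      rw [h1]
    · rw [← Function.iterate_succ_apply' s m, hs]
      have h1 : (π ^ m)⁻¹ = π := by
        rw [inv_eq_iff_mul_eq_one, ← pow_succ, hπ]
      rw [h1]
      rfl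
  · refine hprod x _ (fun i => ?_) m
    have h1 := hiter i ((π ^ i)⁻¹ x) _ (hc _)
    have h2 : (π ^ i) ((π ^ i)⁻¹ x) = x := (π ^ i).apply_symm_apply x
    rwa [h2] at h1

end Pool.Agent.H74.RQ
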