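import Pool.Agent.H95.RQ.Targets2

/-!
# RQ project: FST (the first inequality)
-/

set_option autoImplicit false

open NumberField NumberField.InfinitePlace IsDedekindDomain

namespace Pool.Agent.H74.RQ

open Pool.Agent.H95.RQ Pool.Agent.H28.RC

theorem fst_dvd {K : Type} [Field K] [NumberField K] (m₀ : Ideal (𝓞 K)) (h0 : m₀ ≠ ⊥)
    (T : Finset (HeightOneSpectrum (𝓞 K))) (hT : ∀ P : HeightOneSpectrum (𝓞 K),
      P.asIdeal ∣ m₀ → P ∈ T) (k₀ : ℕ) :
    ∃ k : ℕ, k₀ ≤ k ∧ m₀ ∣ ∏ P ∈ T, P.asIdeal ^ (k + 1) := by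
  have h0' : m₀ ≠ 0 := h0
  set c : HeightOneSpectrum (𝓞 K) → ℕ := fun P =>
    (Associates.mk P.asIdeal).count (Associates.mk m₀).factors with hc
  refine ⟨k₀ + ∑ P ∈ T, c P, by omega, ?_⟩
  conv_lhs => rw [← Ideal.finprod_heightOneSpectrum_factorization h0']
  rw [finprod_eq_prod_of_mulSupport_subset (s := T) _ ?_]
  · refine Finset.prod_dvd_prod_of_dvd _ _ fun P hP => ?_
    refine pow_dvd_pow _ ?_
    have h1 : c P ≤ ∑ P ∈ T, c P := Finset.single_le_sum (fun _ _ => Nat.zero_le _) hP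
    have h2 : (Associates.mk P.asIdeal).count (Associates.mk m₀).factors = c P := rfl
    omega
  · intro P hP
    refine Finset.mem_coe.2 (hT P ?_)
    by_contra hcon
    apply hP
    have h1 : (Associates.mk P.asIdeal).count (Associates.mk m₀).factors = 0 := by
      by_contra h2
      exact hcon ((Associates.count_ne_zero_iff_dvd h0' P.irreducible).1 h2)
    show P.maxPowDividing m₀ = 1
    rw [HeightOneSpectrum.maxPowDividing, h1, pow_zero]

theorem pf_FST (h_EXT : T_EXT) (h_GLO : T_GLO) (h_DUA : T_DUA) (h_FSX : T_FSX) : T_FST := by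
  intro F E _ _ _ _ _ _ σ hσ m₀ h0
  classical
  have h0' : m₀ ≠ 0 := h0
  obtain ⟨T, hT0, hNR, hCG, hCGE⟩ := h_EXT F E (Ideal.finite_factors h0').toFinset
  obtain ⟨k₀, hk₀⟩ := h_GLO F E σ T hσ hNR hCG
  obtain ⟨k, hk, hdvd⟩ := fst_dvd m₀ h0 T (fun P hP => hT0 (by
    rw [Set.Finite.mem_toFinset]
    exact hP)) k₀
  obtain ⟨hi0, hin⟩ := hk₀ k hk
  obtain ⟨X, hX, hX1⟩ := h_DUA Fˣ _ hi0
  obtain ⟨Θ, hΘ, hΘ1⟩ := h_FSX F E T k _ hCG hCGE rfl
  refine ⟨∏ P ∈ T, P.asIdeal ^ (k + 1), Ideal.le_of_dvd hdvd, ?_,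
    X.attach.image fun κ => Θ ⟨κ.1, hX1 κ.1 κ.2⟩, ?_, ?_⟩
  · exact Finset.prod_ne_zero_iff.2 fun P _ => pow_ne_zero _ P.ne_bot
  · rw [Finset.card_image_of_injective, Finset.card_attach, hX]
    · exact hin
    · intro κ κ' h
      have h1 := hΘ h
      rw [Subtype.mk.injEq] at h1
      exact Subtype.ext h1
  · intro χ hχ
    obtain ⟨κ, _, rfl⟩ := Finset.mem_image.1 hχ
    exact hΘ1 _

end Pool.Agent.H74.RQ
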