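import Pool.Agent.H95.RQ.Targets2

/-!
# RQ project: NPO (norms are positive at the ramified real places)
-/

set_option autoImplicit false

open NumberField NumberField.InfinitePlace IsDedekindDomain

namespace Pool.Agent.H74.RQ

open Pool.Agent.H95.RQ Pool.Agent.H28.RC

/-- a product over a finite group which is invariant under a pairing -/
theorem npo_prod {G : Type} [Fintype G] (c : G → G) (hcc : ∀ g, c (c g) = g)
    (hcg : ∀ g, c g ≠ g) (f : G → ℂ) (hf : ∀ g, f (c g) = star (f g)) (h0 : ∀ g, f g ≠ 0) :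
    ∃ r : ℝ, 0 < r ∧ ∏ g, f g = (r : ℂ) := by
  classical
  let e := Fintype.equivFin G
  have hne : ∀ g, e (c g) ≠ e g := fun g h => hcg g (e.injective h)
  refine ⟨∏ g ∈ Finset.univ.filter (fun g => e g < e (c g)), Complex.normSq (f g),
    Finset.prod_pos fun g _ => Complex.normSq_pos.2 (h0 g), ?_⟩
  rw [← Finset.prod_filter_mul_prod_filter_not Finset.univ (fun g => e g < e (c g)) f]
  have h1 : ∏ g ∈ Finset.univ.filter (fun g => ¬ e g < e (c g)), f g =
      ∏ g ∈ Finset.univ.filter (fun g => e g < e (c g)), star (f g) := by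
    refine Finset.prod_nbij' c c ?_ ?_ ?_ ?_ ?_
    · intro g hg
      rw [Finset.mem_filter] at hg ⊢
      refine ⟨Finset.mem_univ _, ?_⟩
      rw [hcc]
      exact lt_of_le_of_ne (not_lt.1 hg.2) (hne g)
    · intro g hg
      rw [Finset.mem_filter] at hg ⊢
      refine ⟨Finset.mem_univ _, ?_⟩
      rw [hcc]
      exact not_lt.2 hg.2.le
    · intro g _
      exact hcc g
    · intro g _
      exact hcc g
    · intro g _
      rw [hf, star_star]
  rw [h1, ← Finset.prod_mul_distrib, Complex.ofReal_prod]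
  refine Finset.prod_congr rfl fun g _ => ?_
  rw [Complex.normSq_eq_conj_mul_self, mul_comm]
  rfl

theorem pf_NPO : T_NPO := by
  intro F E _ _ _ _ _ _
  refine ⟨?_, ?_⟩
  · intro v hv x hx
    obtain ⟨y, rfl⟩ := hx
    unfold InfinitePlace.IsUnramifiedIn at hv
    push Not at hv
    obtain ⟨w, hw, hwr⟩ := hv
    have hwr' : (mk w.embedding).IsRamified F := by
      rw [mk_embedding]
      exact hwr
    obtain ⟨c, hc⟩ := exists_isConj_of_isRamified hwr'
    have hc1 : c ≠ 1 := fun h => hwr' (hc.isUnramified_mk_iff.2 h)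
    have hcc : ∀ g : E ≃ₐ[F] E, c * (c * g) = g := by
      intro g
      ext z
      exact ComplexEmbedding.isConj_apply_apply hc (g z)
    have hne : ∀ g : E ≃ₐ[F] E, c * g ≠ g := fun g h => hc1 (mul_eq_right.1 h)
    obtain ⟨r, hr, hr1⟩ := npo_prod (fun g : E ≃ₐ[F] E => c * g) hcc hne
      (fun g => w.embedding (g (y : E))) (fun g => hc.eq (g (y : E))) (fun g => by
        rw [Ne, map_eq_zero, map_eq_zero_iff g g.injective]
        exact y.ne_zero)
    have h1 : ((re v ((Units.map (Algebra.norm F : E →* F) y : Fˣ) : F) : ℝ) : ℂ) = (r : ℂ) := by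
      unfold re
      rw [embedding_of_isReal_apply, ← hr1]
      have h2 : v.1.embedding = w.embedding.comp (algebraMap F E) := by
        rw [← hw]
        exact comap_embedding_of_isReal (algebraMap F E) (hw ▸ v.2)
      rw [h2, RingHom.comp_apply, Units.coe_map,
        Algebra.norm_eq_prod_automorphisms, map_prod]
    rw [Complex.ofReal_inj.1 h1]
    exact hr
  · refine Nat.card_congr ⟨fun v => ⟨v.1.1, v.2⟩, fun v => ⟨⟨v.1, ?_⟩, v.2⟩, fun v => rfl,
      fun v => rfl⟩
    have hv := v.2
    unfold InfinitePlace.IsUnramifiedIn at hv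
    push Not at hv
    obtain ⟨w, hw, hwr⟩ := hv
    rw [← hw]
    exact (not_isUnramified_iff.1 hwr).2

end Pool.Agent.H74.RQ
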