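import Pool.Agent.H95.RQ.Targets2

/-!
# RQ project: VQH (the Herbrand quotient of `E^* / V_j`)
-/

set_option autoImplicit false

open NumberField NumberField.InfinitePlace IsDedekindDomain

namespace Pool.Agent.H74.RQ

open Pool.Agent.H95.RQ Pool.Agent.H28.RC

/-- the map from the permutation module attached to a family of elements -/
noncomputable def vqhPhi {X A : Type} [Fintype X] [CommGroup A] (p : X → A) :
    (X → Multiplicative ℤ) →* A where
  toFun b := ∏ Q, p Q ^ (Multiplicative.toAdd (b Q))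
  map_one' := by simp
  map_mul' b b' := by
    rw [← Finset.prod_mul_distrib]
    refine Finset.prod_congr rfl fun Q _ => ?_
    rw [Pi.mul_apply, toAdd_mul, zpow_add]

theorem vqhPhi_apply {X A : Type} [Fintype X] [CommGroup A] (p : X → A)
    (b : X → Multiplicative ℤ) : vqhPhi p b = ∏ Q, p Q ^ (Multiplicative.toAdd (b Q)) := rfl

section grp

variable {X A : Type} [Fintype X] [CommGroup A] (val : A →* Multiplicative (X → ℤ)) (p : X → A)

omit [Fintype X] in
theorem vqh_val_prod {ι : Type} (s : Finset ι) (f : ι → A) (Q : X) :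
    Multiplicative.toAdd (val (∏ i ∈ s, f i)) Q = ∑ i ∈ s, Multiplicative.toAdd (val (f i)) Q := by
  classical
  induction s using Finset.induction_on with
  | empty => simp
  | insert a s ha ih =>
    rw [Finset.prod_insert ha, Finset.sum_insert ha, map_mul, toAdd_mul, Pi.add_apply, ih]

theorem vqh_val (hp : ∀ Q Q', Q' ≠ Q → Multiplicative.toAdd (val (p Q)) Q' = 0)
    (b : X → Multiplicative ℤ) (Q : X) :
    Multiplicative.toAdd (val (vqhPhi p b)) Q =
      Multiplicative.toAdd (b Q) * Multiplicative.toAdd (val (p Q)) Q := by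
  classical
  rw [vqhPhi_apply, vqh_val_prod, Finset.sum_eq_single Q]
  · rw [map_zpow, toAdd_zpow, Pi.smul_apply, smul_eq_mul]
  · intro Q' _ h
    rw [map_zpow, toAdd_zpow, Pi.smul_apply, smul_eq_mul, hp Q' Q h.symm, mul_zero]
  · intro h
    exact absurd (Finset.mem_univ _) h

theorem vqh_index (hp : ∀ Q Q', Q' ≠ Q → Multiplicative.toAdd (val (p Q)) Q' = 0)
    (hp0 : ∀ Q, Multiplicative.toAdd (val (p Q)) Q ≠ 0) :
    ((vqhPhi p).range ⊔ val.ker).index ≠ 0 := by
  classical
  set H : Subgroup (Multiplicative (X → ℤ)) := (vqhPhi p).range.map val with hH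
  have hHi : H.index ≠ 0 := by
    set M : ℤ := ∏ Q, Multiplicative.toAdd (val (p Q)) Q with hM
    have hM0 : M ≠ 0 := Finset.prod_ne_zero_iff.2 fun Q _ => hp0 Q
    have hmem : ∀ c : Multiplicative (X → ℤ), c ^ M ∈ H := by
      intro c
      refine ⟨vqhPhi p (fun Q => Multiplicative.ofAdd
        (M / Multiplicative.toAdd (val (p Q)) Q * Multiplicative.toAdd c Q)), ⟨_, rfl⟩, ?_⟩
      apply Multiplicative.toAdd.injective
      funext Q
      rw [vqh_val val p hp, toAdd_ofAdd, toAdd_zpow, Pi.smul_apply, smul_eq_mul]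
      have h1 : Multiplicative.toAdd (val (p Q)) Q ∣ M := Finset.dvd_prod_of_mem _
        (Finset.mem_univ Q)
      have h2 := Int.ediv_mul_cancel h1
      calc M / Multiplicative.toAdd (val (p Q)) Q * Multiplicative.toAdd c Q *
            Multiplicative.toAdd (val (p Q)) Q
          = (M / Multiplicative.toAdd (val (p Q)) Q * Multiplicative.toAdd (val (p Q)) Q) *
            Multiplicative.toAdd c Q := by ring
        _ = M * Multiplicative.toAdd c Q := by rw [h2]
    have htor : IsMulTorsion (Multiplicative (X → ℤ) ⧸ H) := by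
      intro q
      obtain ⟨c, rfl⟩ := QuotientGroup.mk_surjective q
      rw [isOfFinOrder_iff_pow_eq_one]
      refine ⟨M.natAbs, Int.natAbs_pos.2 hM0, ?_⟩
      rw [← QuotientGroup.mk_pow, QuotientGroup.eq_one_iff]
      rcases Int.natAbs_eq M with h | h
      · have h1 := hmem c
        rw [h, zpow_natCast] at h1
        exact h1
      · have h1 := hmem c
        rw [h, zpow_neg, zpow_natCast] at h1
        exact inv_mem_iff.1 h1
    have : Group.FG (Multiplicative (X → ℤ) ⧸ H) := inferInstance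
    have := CommGroup.finite_of_fg_isMulTorsion _ htor
    exact (Subgroup.finiteIndex_of_finite_quotient (H := H)).index_ne_zero
  rw [← Subgroup.comap_map_eq, Subgroup.index_comap]
  have : H.FiniteIndex := ⟨hHi⟩
  exact (inferInstance : (H.subgroupOf val.range).FiniteIndex).index_ne_zero

end grp

/-- the valuations above `P` -/
noncomputable def vqhVal (F E : Type) [Field F] [NumberField F] [Field E] [NumberField E]
    [Algebra F E] (P : HeightOneSpectrum (𝓞 F)) : Eˣ →* Multiplicative (Ab F E P → ℤ) where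
  toFun x := Multiplicative.ofAdd fun Q => WithZero.log (Q.1.valuation E (x : E))
  map_one' := by
    apply Multiplicative.toAdd.injective
    funext Q
    simp
  map_mul' x y := by
    apply Multiplicative.toAdd.injective
    funext Q
    rw [toAdd_ofAdd, toAdd_mul, Pi.add_apply, toAdd_ofAdd, toAdd_ofAdd, Units.val_mul, map_mul,
      WithZero.log_mul]
    · exact (Valuation.ne_zero_iff _).2 x.ne_zero
    · exact (Valuation.ne_zero_iff _).2 y.ne_zero

theorem vqhVal_apply {F E : Type} [Field F] [NumberField F] [Field E] [NumberField E]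
    [Algebra F E] (P : HeightOneSpectrum (𝓞 F)) (x : Eˣ) (Q : Ab F E P) :
    Multiplicative.toAdd (vqhVal F E P x) Q = WithZero.log (Q.1.valuation E (x : E)) := rfl

theorem vqh_log {a : WithZero (Multiplicative ℤ)} (ha : a ≠ 0) : WithZero.log a = 0 ↔ a = 1 := by
  constructor
  · intro h
    rw [← WithZero.exp_log ha, h, WithZero.exp_zero]
  · rintro rfl
    exact WithZero.log_one

theorem vqhVal_ker {F E : Type} [Field F] [NumberField F] [Field E] [NumberField E]
    [Algebra F E] (P : HeightOneSpectrum (𝓞 F)) : (vqhVal F E P).ker = UP E P := by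
  ext x
  rw [MonoidHom.mem_ker]
  constructor
  · intro h Q
    have h1 : Multiplicative.toAdd (vqhVal F E P x) Q = 0 := by
      rw [h]
      rfl
    rw [vqhVal_apply, vqh_log ((Valuation.ne_zero_iff _).2 x.ne_zero)] at h1
    exact h1
  · intro h
    apply Multiplicative.toAdd.injective
    funext Q
    rw [vqhVal_apply, h Q, WithZero.log_one]
    rfl

theorem pf_VQH (h_VAL : T_VAL) (h_NMN : T_NMN) (h_PIW : T_PIW) (h_HQX : T_HQX) (h_HQQ : T_HQQ)
    (h_VSG : T_VSG) (h_LAM : T_LAM) (h_UPF : T_UPF) : T_VQH := by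
  intro F E _ _ _ _ _ _ P σ hσ
  classical
  obtain ⟨-, hVu, hVp, hVt, -, hVf, -⟩ := h_VAL F E
  obtain ⟨hN1, hN2, -, -⟩ := h_NMN F E σ hσ
  obtain ⟨hne, hfin, hcard⟩ := hVf P
  have := hne
  have := hfin
  let _ : Fintype (Ab F E P) := Fintype.ofFinite _
  have hn1 : 1 ≤ Module.finrank F E := Module.finrank_pos
  obtain ⟨pp, hpp1, hpp2⟩ := h_PIW F E σ (Module.finrank F E) hn1 hN1
  obtain ⟨-, -, -, -, hL5, -, -, -⟩ := h_LAM F E P
  obtain ⟨j₁, hj₁⟩ := h_VSG F E P
  obtain ⟨j₂, hj₂⟩ := h_UPF F E P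
  have hmp : ∀ Q : HeightOneSpectrum (𝓞 E), (mp σ Q).asIdeal.under (𝓞 F) = P.asIdeal ↔
      Q.asIdeal.under (𝓞 F) = P.asIdeal := fun Q => by rw [hVu]
  set π : Equiv.Perm (Ab F E P) := (mp σ).subtypePerm hmp with hπ
  have hπa : ∀ Q : Ab F E P, (π Q).1 = mp σ Q.1 := fun Q => rfl
  have hπpow : ∀ (k : ℕ) (Q : Ab F E P), ((π ^ k) Q).1 = (mp σ ^ k) Q.1 := by
    intro k
    induction k with
    | zero => intro Q; rfl
    | succ k ih =>
      intro Q
      rw [pow_succ', pow_succ', Equiv.Perm.mul_apply, Equiv.Perm.mul_apply, hπa, ih]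
  have hπn : π ^ Module.finrank F E = 1 := by
    ext1 Q
    apply Subtype.ext
    rw [hπpow, ← hVp, hN1]
    have h1 := hVp σ 0
    rw [pow_zero, pow_zero] at h1
    rw [h1]
    rfl
  have horb : ∀ Q Q' : Ab F E P, () = () ↔ ∃ i : ℕ, (π ^ i) Q = Q' := by
    intro Q Q'
    refine ⟨fun _ => ?_, fun _ => rfl⟩
    obtain ⟨g, hg⟩ := hVt Q.1 Q'.1 (Q.2.trans Q'.2.symm)
    have h1 : g ∈ Submonoid.powers σ := by
      rw [mem_powers_iff_mem_zpowers]
      exact hσ g
    obtain ⟨i, rfl⟩ := h1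
    refine ⟨i, Subtype.ext ?_⟩
    rw [hπpow, ← hVp]
    exact hg
  obtain ⟨hx0, hx1⟩ := h_HQX (Ab F E P) Unit π (fun _ => ()) (Module.finrank F E) hn1 hπn
    (fun _ => ⟨Classical.arbitrary _, rfl⟩) horb
  have hx0' : h0 (pm π) (Module.finrank F E) ⊤ = nP F E P := by
    rw [hx0, Finset.univ_unique, Finset.prod_singleton]
    unfold nP
    congr 1
    exact Nat.card_congr (Equiv.subtypeUnivEquiv fun _ => rfl)
  have hnP : nP F E P ≠ 0 := by
    unfold nP
    have h1 : 0 < Nat.card (Ab F E P) := Nat.card_pos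
    have h2 := Nat.le_of_dvd hn1 hcard
    exact (Nat.div_pos h2 h1).ne'
  refine ⟨max j₁ j₂, fun j hj => ?_⟩
  have hjV := hj₁ j (le_trans (le_max_left _ _) hj)
  obtain ⟨hjU, hjI⟩ := hj₂ j (le_trans (le_max_right _ _) hj)
  have hval : ∀ Q Q' : Ab F E P, Q' ≠ Q →
      Multiplicative.toAdd (vqhVal F E P (pp Q.1)) Q' = 0 := by
    intro Q Q' h
    rw [vqhVal_apply, vqh_log ((Valuation.ne_zero_iff _).2 (pp Q.1).ne_zero)]
    exact (hpp2 Q.1).2 Q'.1 (fun h1 => h (Subtype.ext h1))
  have hval0 : ∀ Q : Ab F E P, Multiplicative.toAdd (vqhVal F E P (pp Q.1)) Q ≠ 0 := by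
    intro Q
    rw [vqhVal_apply, Ne, vqh_log ((Valuation.ne_zero_iff _).2 (pp Q.1).ne_zero)]
    exact (hpp2 Q.1).1.ne
  have hindex := vqh_index (vqhVal F E P) (fun Q : Ab F E P => pp Q.1) hval hval0
  rw [vqhVal_ker] at hindex
  have hfix := h_HQQ Eˣ (Ab F E P → Multiplicative ℤ) (us σ) (pm π) (Module.finrank F E)
    (VV E P j) (vqhPhi fun Q : Ab F E P => pp Q.1) hn1 hN2 ?_ ?_ ?_ ?_ ?_ ?_
  · obtain ⟨-, h2, h3⟩ := hfix
    refine ⟨h2, ?_⟩
    rw [hx1, mul_one, hx0'] at h3
    exact h3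
  · intro v hv
    rw [hjV] at hv ⊢
    have h1 := hL5 j σ _ hv
    rw [map_sub, map_one] at h1
    exact h1
  · intro b
    rw [vqhPhi_apply, vqhPhi_apply, map_prod]
    refine (Equiv.prod_comp π _).symm.trans (Finset.prod_congr rfl fun Q _ => ?_)
    have h1 : pm π b (π Q) = b Q := by
      show b (π.symm (π Q)) = b Q
      rw [Equiv.symm_apply_apply]
    rw [h1, hπa, hpp1, map_zpow]
  · intro b hb
    have h1 : vqhPhi (fun Q : Ab F E P => pp Q.1) b ∈ (vqhVal F E P).ker := by
      rw [vqhVal_ker]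
      exact hjU hb
    funext Q
    have h2 := vqh_val (vqhVal F E P) (fun Q : Ab F E P => pp Q.1) hval b Q
    rw [MonoidHom.mem_ker.1 h1] at h2
    have h3 : Multiplicative.toAdd (b Q) * Multiplicative.toAdd (vqhVal F E P (pp Q.1)) Q = 0 :=
      h2.symm
    rcases mul_eq_zero.1 h3 with h4 | h4
    · exact Multiplicative.toAdd.injective h4
    · exact absurd h4 (hval0 Q)
  · have h1 : ((vqhPhi fun Q : Ab F E P => pp Q.1).range ⊔ VV E P j).relIndex
        ((vqhPhi fun Q : Ab F E P => pp Q.1).range ⊔ UP E P) ≠ 0 := by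
      have h2 : (vqhPhi fun Q : Ab F E P => pp Q.1).range ⊔ UP E P =
          UP E P ⊔ ((vqhPhi fun Q : Ab F E P => pp Q.1).range ⊔ VV E P j) := by
        rw [sup_comm (UP E P), sup_assoc, sup_eq_right.2 hjU]
      rw [h2, Subgroup.relIndex_sup_right]
      intro h3
      have h4 := Subgroup.relIndex_dvd_of_le_left (UP E P)
        (le_sup_right : VV E P j ≤ (vqhPhi fun Q : Ab F E P => pp Q.1).range ⊔ VV E P j)
      rw [h3, zero_dvd_iff] at h4
      exact hjI h4
    rw [← Subgroup.relIndex_mul_index (sup_le_sup_left hjU _)]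
    exact mul_ne_zero h1 hindex
  · rw [hx0']
    exact hnP
  · rw [hx1]
    exact one_ne_zero

end Pool.Agent.H74.RQ
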