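import Pool.Agent.H29.RQ.Targets

/-!
MP_c65535_nt, board rdq, row KEA: the two determinants.
-/

set_option autoImplicit false

namespace Pool.Agent.H74.RQ

open Pool.Agent.H29.RQ Pool.Agent.H23.RDD Pool.Agent.H24.RD NumberField Height Finset Polynomial

/-- row KEA -/
theorem pf_KEA (h1 : T_RS) (h2 : T_PFX) (h3 : T_KEB) : T_KEA := by
  classical
  intro F E M _ _ _ _ _ _ _ _ _ _ _ _ _ _ p hp V U T d j k hT hd hcard hcomm hWE hTk hnum b g
    hb hg hconj hpow H hH hHM κ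
  obtain ⟨P, hP, hPsum, -⟩ := h2 M p hp
  -- the subgroups at the places
  have hWM : ∀ v : FinitePlace M, ∃ W : Subgroup (E ≃ₐ[F] E), v ∈ P → (W ≤ V ∧
      (∀ t ∈ W, ∀ x : E, x ≠ 0 →
        v.1 (algebraMap E M (t x / x - 1)) ≤ v.1 (p : M) ^ (1 / ((2 * T : ℕ) : ℝ))) ∧
      p ^ (2 * j) ≤ U.relIndex W) := by
    intro v
    by_cases hv : v ∈ P
    · obtain ⟨u, c, hc, hu⟩ := h1 E M v
      have hvp : v.1 (p : M) = (u.1 (p : E)) ^ c := by
        have := hu (p : E)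
        rwa [map_natCast] at this
      have hup : u.1 (p : E) < 1 := by
        by_contra hcon
        have h4 : 1 ≤ (u.1 (p : E)) ^ c := Real.one_le_rpow (not_lt.mp hcon) hc.le
        rw [← hvp] at h4
        exact absurd ((hP v).mp hv) (not_lt.mpr h4)
      obtain ⟨W, hWV, hW1, hW2⟩ := hWE u hup
      refine ⟨W, fun _ => ⟨hWV, ?_, hW2⟩⟩
      intro t ht x hx
      rw [hu, hvp, ← Real.rpow_mul (apply_nonneg u.1 _), mul_comm c,
        Real.rpow_mul (apply_nonneg u.1 _)]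
      exact Real.rpow_le_rpow (apply_nonneg u.1 _) (hW1 t ht x hx) hc.le
    · exact ⟨⊥, fun h => absurd h hv⟩
  choose W hW using hWM
  -- the first element
  obtain ⟨B, hBV, hBl, hBs⟩ := h3 F E M p hp V T d k hT hd hcard hcomm hTk b g hb hg hconj hpow H hH
  -- conjugation
  have hκE : ∀ y : E, κ (algebraMap E M y) = algebraMap E M (κ.restrictNormal E y) :=
    fun y => (AlgEquiv.restrictNormal_commutes κ E y).symm
  have hfix : ∀ σ : M ≃ₐ[F] M, (∀ y : E, σ (algebraMap E M y) = algebraMap E M y) →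
      ∀ y : E, ((κ.trans σ).trans κ.symm) (algebraMap E M y) = algebraMap E M y := by
    intro σ hσ y
    rw [AlgEquiv.trans_apply, AlgEquiv.trans_apply, hκE, hσ, ← hκE, AlgEquiv.symm_apply_apply]
  have hκb : κ b ≠ 0 := (map_ne_zero_iff κ κ.injective).mpr hb
  have hconj' : ∃ s : Finset M, s.card ≤ d ∧ ∀ σ : M ≃ₐ[F] M,
      (∀ y : E, σ (algebraMap E M y) = algebraMap E M y) → σ (κ b) ∈ s := by
    obtain ⟨s, hs, hs2⟩ := hconj
    refine ⟨s.image κ, card_image_le.trans hs, fun σ hσ => ?_⟩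
    have h4 := hs2 _ (hfix σ hσ)
    rw [mem_image]
    refine ⟨_, h4, ?_⟩
    rw [AlgEquiv.trans_apply, AlgEquiv.trans_apply, AlgEquiv.apply_symm_apply]
  have hpow' : ∀ σ : M ≃ₐ[F] M, (∀ y : E, σ (algebraMap E M y) = algebraMap E M y) →
      (σ (κ b)) ^ (p ^ k) = (κ b) ^ (p ^ k) → σ (κ b) = κ b := by
    intro σ hσ he
    have h4 := hpow _ (hfix σ hσ) (by
      rw [AlgEquiv.trans_apply, AlgEquiv.trans_apply, ← map_pow, he, map_pow,
        AlgEquiv.symm_apply_apply])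
    rw [AlgEquiv.trans_apply, AlgEquiv.trans_apply] at h4
    have h5 := congrArg κ h4
    rwa [AlgEquiv.apply_symm_apply] at h5
  have hH' : ∀ σ : M ≃ₐ[F] M, logHeight₁ (σ (κ b) * g) ≤ H := fun σ => hH (κ.trans σ)
  obtain ⟨B', hBV', hBl', hBs'⟩ := h3 F E M p hp V T d k hT hd hcard hcomm hTk (κ b) g hκb hg
    hconj' hpow' H hH'
  by_contra hcon
  have hBU : B ⊓ B' ≤ U := by
    intro t ht
    by_contra htU
    exact hcon ⟨t, hBV ht.1, htU, hBl t ht.1, hBl' t ht.2⟩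
  have hab : ∀ v ∈ P, 2 * (p : ℝ) ^ j ≤ (B.relIndex (W v) : ℝ) + (B'.relIndex (W v) : ℝ) := by
    intro v hv
    have h4 : p ^ (2 * j) ≤ B.relIndex (W v) * B'.relIndex (W v) := by
      refine ((hW v hv).2.2.trans (Subgroup.relIndex_le_of_le_left hBU ?_)).trans
        (Subgroup.relIndex_inf_le)
      exact Subgroup.index_ne_zero_of_finite
    have h5 : ((p : ℝ) ^ j) ^ 2 ≤ (B.relIndex (W v) : ℝ) * (B'.relIndex (W v) : ℝ) := by
      rw [← pow_mul, mul_comm j 2]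
      exact_mod_cast h4
    have h6 : (0 : ℝ) ≤ (B.relIndex (W v) : ℝ) := Nat.cast_nonneg _
    have h7 : (0 : ℝ) ≤ (B'.relIndex (W v) : ℝ) := Nat.cast_nonneg _
    have h8 : (0 : ℝ) ≤ (p : ℝ) ^ j := by positivity
    have h9 : (2 * (p : ℝ) ^ j) ^ 2 ≤
        ((B.relIndex (W v) : ℝ) + (B'.relIndex (W v) : ℝ)) ^ 2 := by
      nlinarith [sq_nonneg ((B.relIndex (W v) : ℝ) - (B'.relIndex (W v) : ℝ))]
    exact (sq_le_sq₀ (by positivity) (by positivity)).mp h9
  have s1 := hBs P hP W (fun v hv => ⟨(hW v hv).1, (hW v hv).2.1⟩)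
  have s2 := hBs' P hP W (fun v hv => ⟨(hW v hv).1, (hW v hv).2.1⟩)
  have s3 : ∑ v ∈ P, (- Real.log (v.1 (p : M))) * (2 * ((p : ℝ) ^ j - 1)) ≤
      ∑ v ∈ P, ((- Real.log (v.1 (p : M))) * ((B.relIndex (W v) : ℝ) - 1) +
        (- Real.log (v.1 (p : M))) * ((B'.relIndex (W v) : ℝ) - 1)) := by
    apply Finset.sum_le_sum
    intro v hv
    rw [← mul_add]
    apply mul_le_mul_of_nonneg_left
    · have := hab v hv
      linarith
    · have := Real.log_nonpos (apply_nonneg v.1 (p : M)) ((hP v).mp hv).le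
      linarith
  rw [Finset.sum_add_distrib, ← Finset.sum_mul, hPsum] at s3
  have hM0 : (0 : ℝ) ≤ (Module.finrank ℚ M : ℝ) := Nat.cast_nonneg _
  have s4 := mul_le_mul_of_nonneg_left hnum hM0
  nlinarith [s1, s2, s3, s4, hHM]

end Pool.Agent.H74.RQ
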